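import Pool.Agent.V110.QN.FiniteQ

set_option autoImplicit false

open Polynomial

namespace Pool.Agent.Results.MP_16d611_an.QRangeCrouzeix

/-- The operator norm of a matrix induced by the Euclidean norm. -/
noncomputable def opNorm {n : ℕ} (B : Matrix (Fin n) (Fin n) ℂ) : ℝ :=
  ‖Matrix.toEuclideanCLM (n := Fin n) (𝕜 := ℂ) B‖

/-- The `q`-numerical range `W_q(A)`: the numbers `⟨Ax, y⟩` with `‖x‖ = ‖y‖ = 1` and
`⟨x, y⟩ = q`, where `⟨u, v⟩ = ∑ uᵢ v̄ᵢ` is Mathlib's `inner ℂ v u`. -/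
def Wq {n : ℕ} (q : ℂ) (A : Matrix (Fin n) (Fin n) ℂ) : Set ℂ :=
  {w | ∃ x y : EuclideanSpace ℂ (Fin n), ‖x‖ = 1 ∧ ‖y‖ = 1 ∧ inner ℂ y x = q ∧
    inner ℂ y (Matrix.toEuclideanCLM (n := Fin n) (𝕜 := ℂ) A x) = w}

/-- The scaled `q`-numerical range `Ω_q = W_q(A) / q`. -/
def Omega {n : ℕ} (q : ℂ) (A : Matrix (Fin n) (Fin n) ℂ) : Set ℂ :=
  {z | ∃ w ∈ Wq q A, z = w / q}

/-- The constant `c(q) = max (1, 2|q| / (1 + √(1 - |q|²)))`. -/
noncomputable def cq (q : ℂ) : ℝ := max 1 (2 * ‖q‖ / (1 + √(1 - ‖q‖ ^ 2)))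

theorem Omega_eq {n : ℕ} (q : ℂ) (A : Matrix (Fin n) (Fin n) ℂ) :
    Omega q A = V110.QN.scaledRange q (Matrix.toEuclideanCLM (n := Fin n) (𝕜 := ℂ) A) := by
  ext z
  constructor
  · rintro ⟨w, ⟨x, y, hx, hy, hyx, rfl⟩, rfl⟩
    exact ⟨x, y, hx, hy, hyx, rfl⟩
  · rintro ⟨x, y, hx, hy, hyx, rfl⟩
    exact ⟨_, ⟨x, y, hx, hy, hyx, rfl⟩, rfl⟩

theorem Omega_nonempty {n : ℕ} (q : ℂ) (A : Matrix (Fin n) (Fin n) ℂ) (hn : 1 ≤ n)
    (hq1 : ‖q‖ ≤ 1) (h1 : n = 1 → ‖q‖ = 1) : (Omega q A).Nonempty := by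
  rw [Omega_eq]
  have key : ∃ x y : EuclideanSpace ℂ (Fin n), ‖x‖ = 1 ∧ ‖y‖ = 1 ∧ inner ℂ y x = q := by
    by_cases hq : ‖q‖ = 1
    · obtain ⟨m, rfl⟩ : ∃ m, n = m + 1 := ⟨n - 1, by omega⟩
      refine ⟨EuclideanSpace.single 0 1, (starRingEnd ℂ) q • EuclideanSpace.single 0 1, by simp,
        ?_, ?_⟩
      · rw [norm_smul, RCLike.norm_conj, hq]; simp
      · rw [inner_smul_left, Complex.conj_conj, inner_self_eq_norm_sq_to_K]; simp
    · obtain ⟨m, rfl⟩ : ∃ m, n = m + 2 := ⟨n - 2, by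
        rcases Nat.lt_or_ge n 2 with h | h
        · exact absurd (h1 (by omega)) hq
        · omega⟩
      set x : EuclideanSpace ℂ (Fin (m + 2)) := EuclideanSpace.single 0 1 with hx
      set z : EuclideanSpace ℂ (Fin (m + 2)) := EuclideanSpace.single 1 1 with hz
      have hzx : inner ℂ z x = 0 := by
        rw [hx, hz, EuclideanSpace.inner_single_left]; simp
      have hxz : inner ℂ x z = 0 := by
        rw [hx, hz, EuclideanSpace.inner_single_left]; simp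
      have hxx : inner ℂ x x = 1 := by rw [inner_self_eq_norm_sq_to_K, hx]; simp
      have hzz : inner ℂ z z = 1 := by rw [inner_self_eq_norm_sq_to_K, hz]; simp
      set s : ℝ := √(1 - ‖q‖ ^ 2) with hs
      have hs2 : s ^ 2 = 1 - ‖q‖ ^ 2 := Real.sq_sqrt (by nlinarith [norm_nonneg q])
      set y : EuclideanSpace ℂ (Fin (m + 2)) := (starRingEnd ℂ) q • x + (s : ℂ) • z with hy
      refine ⟨x, y, by simp [hx], ?_, ?_⟩
      · have h2 : inner ℂ y y = 1 := by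
          rw [hy, inner_add_left, inner_add_right, inner_add_right, inner_smul_left,
            inner_smul_left, inner_smul_left, inner_smul_left, inner_smul_right, inner_smul_right,
            inner_smul_right, inner_smul_right, hxx, hzz, hxz, hzx, Complex.conj_conj,
            Complex.conj_ofReal]
          have e1 : q * (starRingEnd ℂ) q = ((‖q‖ ^ 2 : ℝ) : ℂ) := by
            rw [Complex.mul_conj, Complex.normSq_eq_norm_sq]
          have e2 : (s : ℂ) * s = ((1 - ‖q‖ ^ 2 : ℝ) : ℂ) := by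
            rw [← hs2]; push_cast; ring
          simp only [mul_one, mul_zero, add_zero, zero_add]
          rw [e1, e2]
          push_cast
          ring
        rw [inner_self_eq_norm_sq_to_K] at h2
        have h3 : ‖y‖ ^ 2 = 1 := by
          have h4 : ((‖y‖ ^ 2 : ℝ) : ℂ) = ((1 : ℝ) : ℂ) := by
            push_cast
            exact h2
          exact Complex.ofReal_injective h4
        exact (pow_eq_one_iff_of_nonneg (norm_nonneg _) two_ne_zero).mp h3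
      · rw [hy, inner_add_left, inner_smul_left, inner_smul_left, hxx, hzx, Complex.conj_conj]
        ring
  obtain ⟨x, y, hx, hy, hyx⟩ := key
  exact ⟨_, x, y, hx, hy, hyx, rfl⟩

theorem Omega_bounded {n : ℕ} (q : ℂ) (A : Matrix (Fin n) (Fin n) ℂ) (p : ℂ[X]) :
    BddAbove ((fun z => ‖p.eval z‖) '' Omega q A) := by
  set T := Matrix.toEuclideanCLM (n := Fin n) (𝕜 := ℂ) A with hT
  obtain ⟨C, hC⟩ := (isCompact_closedBall (0 : ℂ) (‖T‖ / ‖q‖)).exists_bound_of_continuousOn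
    (f := fun z => p.eval z) (by fun_prop)
  refine ⟨C, ?_⟩
  rintro _ ⟨z, ⟨w, ⟨x, y, hx, hy, hyx, rfl⟩, rfl⟩, rfl⟩
  apply hC
  rw [mem_closedBall_zero_iff, norm_div]
  apply div_le_div_of_nonneg_right _ (norm_nonneg _)
  calc ‖inner ℂ y (T x)‖ ≤ ‖y‖ * ‖T x‖ := norm_inner_le_norm _ _
    _ ≤ ‖y‖ * (‖T‖ * ‖x‖) := by gcongr; exact T.le_opNorm x
    _ = ‖T‖ := by rw [hy, hx]; ring

/-- **Crouzeix-type bound for scaled `q`-numerical ranges.** -/
theorem result (n : ℕ) (hn : 1 ≤ n) (A : Matrix (Fin n) (Fin n) ℂ) (q : ℂ) (hq0 : 0 < ‖q‖)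
    (hq1 : ‖q‖ ≤ 1) (h1 : n = 1 → ‖q‖ = 1) (p : ℂ[X]) :
    (Omega q A).Nonempty ∧ BddAbove ((fun z => ‖p.eval z‖) '' Omega q A) ∧
      opNorm (aeval A p) ≤ cq q * sSup ((fun z => ‖p.eval z‖) '' Omega q A) := by
  have hne := Omega_nonempty q A hn hq1 h1
  have hb := Omega_bounded q A p
  refine ⟨hne, hb, ?_⟩
  have : Nonempty (Fin n) := ⟨⟨0, by omega⟩⟩
  have h2 : Matrix.toEuclideanCLM (n := Fin n) (𝕜 := ℂ) (aeval A p) =
      aeval (Matrix.toEuclideanCLM (n := Fin n) (𝕜 := ℂ) A) p := by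
    have := Polynomial.aeval_algHom_apply
      (Matrix.toEuclideanCLM (n := Fin n) (𝕜 := ℂ)).toAlgEquiv.toAlgHom A p
    exact this.symm
  unfold opNorm
  rw [h2]
  apply V110.QN.bound_all _ q hq0 hq1 (by rw [← Omega_eq]; exact hne) p
  intro w hw
  rw [← Omega_eq] at hw
  exact le_csSup hb ⟨w, hw, rfl⟩

end Pool.Agent.Results.MP_16d611_an.QRangeCrouzeix
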